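import Pool.Agent.LibCPS84.FinU

/-! Bounds for the rate of clustering of the cyclic particle system with four colours. -/

namespace Pool.Agent.Results.MP_9fecc7_pr.FourColours

open MeasureTheory Filter Topology CPS84

/-- There is a constant `K` such that in every cyclic particle system with four colours on `ℤ`,
started from the uniform product measure,
`1 / (200 t) ≤ P(X_t(x) ≠ X_t(x+1)) ≤ K t ^ (-1/3) (log t) ^ (4/3)` for all `t ≥ 2`; so if
`P(X_t(0) ≠ X_t(1)) ∼ C t ^ (-α)` then `1/3 ≤ α ≤ 1`. -/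
theorem result : ∃ K : ℝ, 0 < K ∧
    ∀ {Ω : Type} {mΩ : MeasurableSpace Ω} (P : Measure Ω) (𝓕 : Filtration ℝ mΩ)
      (U : ℤ → ℤ → Ω → Set ℝ) (X : ℝ → Ω → ℤ → ZMod 4), IsCPS 4 P 𝓕 U X →
      (∀ (t : ℝ), 2 ≤ t → ∀ x : ℤ,
        1 / (200 * t) ≤ P.real {ω | X t ω x ≠ X t ω (x + 1)} ∧
          P.real {ω | X t ω x ≠ X t ω (x + 1)} ≤
            K * t ^ (-(1 / 3 : ℝ)) * Real.log t ^ (4 / 3 : ℝ)) ∧
      ∀ C α : ℝ, 0 < C →
        Tendsto (fun t : ℝ => P.real {ω | X t ω 0 ≠ X t ω 1} / (C * t ^ (-α))) atTop (𝓝 1) →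
          1 / 3 ≤ α ∧ α ≤ 1 := by
  obtain ⟨K, hK, H⟩ := final4V
  refine ⟨K, hK, fun P 𝓕 U X h => ⟨fun t ht x => H h t ht x, fun C α hC hlim => ⟨?_, ?_⟩⟩⟩
  · refine third_le_expo (K := K) (fun t ht => ?_) hC hlim
    simpa using (H h t ht 0).2
  · refine expo_le_one (fun t ht => ?_) hC hlim
    simpa using (H h t ht 0).1

end Pool.Agent.Results.MP_9fecc7_pr.FourColours
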