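import Pool.Agent.LibCPS84.FinC
import Pool.Agent.LibCPS84.Expo

/-! Bounds for the rate of clustering of the cyclic particle system with three colours. -/

namespace Pool.Agent.Results.MP_9fecc7_pr.ThreeColours

open MeasureTheory Filter Topology CPS84

/-- For the cyclic particle system with three colours on `ℤ`, started from the uniform product
measure, `1 / (200 t) ≤ P(X_t(x) ≠ X_t(x+1)) ≤ 60 / √t` for all `t ≥ 1`; so if
`P(X_t(0) ≠ X_t(1)) ∼ C t ^ (-α)` then `1/2 ≤ α ≤ 1`. -/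
theorem result {Ω : Type} {mΩ : MeasurableSpace Ω} (P : Measure Ω) (𝓕 : Filtration ℝ mΩ)
    (U : ℤ → ℤ → Ω → Set ℝ) (X : ℝ → Ω → ℤ → ZMod 3) (h : IsCPS 3 P 𝓕 U X) :
    (∀ (t : ℝ), 1 ≤ t → ∀ x : ℤ,
      1 / (200 * t) ≤ P.real {ω | X t ω x ≠ X t ω (x + 1)} ∧
        P.real {ω | X t ω x ≠ X t ω (x + 1)} ≤ 60 / Real.sqrt t) ∧
      ∀ C α : ℝ, 0 < C →
        Tendsto (fun t : ℝ => P.real {ω | X t ω 0 ≠ X t ω 1} / (C * t ^ (-α))) atTop (𝓝 1) →
          1 / 2 ≤ α ∧ α ≤ 1 := by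
  refine ⟨fun t ht x => final3 h t ht x, fun C α hC hlim => ⟨?_, ?_⟩⟩
  · refine half_le_expo (fun t ht => ?_) hC hlim
    simpa using (final3 h t ht 0).2
  · refine expo_le_one (fun t ht => ?_) hC hlim
    simpa using (final3 h t (by linarith) 0).1

end Pool.Agent.Results.MP_9fecc7_pr.ThreeColours
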